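import Pool.Agent.X303.SQ.TypeA

/-! The classification of the positive integral Toeplitz forms with `c 0 = 2`. -/

set_option autoImplicit false

namespace Pool.Agent.X303.SQ

open Polynomial Pool.Agent.X303.SC

variable {c : ℕ → ℤ}

/-- the sum of the far monomials -/
noncomputable def far (k : ℕ) : ℤ[X] := ∑ j ∈ Finset.range 9, monomial (j * k) 1

theorem far_sq {k : ℕ} (h0 : c 0 = 2) (hk : ∀ j, 1 ≤ j → c (j * k) = 1) :
    bil c (far k) (far k) = 90 := by
  unfold far
  have e : ∀ i j : ℕ, bil c (monomial (i * k) 1) (monomial (j * k) 1) =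
      if i = j then 2 else 1 := by
    intro i j
    rw [bil_mono, df_mul]
    split_ifs with hij
    · subst hij
      have : df i i = 0 := by unfold df; omega
      rw [this, zero_mul, h0]
      norm_num
    · rw [hk _ (by unfold df; omega)]
      norm_num
  rw [bil_sum_left]
  simp only [bil_sum_right, e]
  decide +kernel

/-- **Two nonzero terms of type `D`.** -/
theorem no_two_D (h : Pos c) (h0 : c 0 = 2) {n m : ℕ} (hn : 2 ≤ n) (hnm : n < m) (hm2n : m ≠ 2 * n)
    {ε δ : ℤ} (hε : ε = 1 ∨ ε = -1) (hδ : δ = 1 ∨ δ = -1)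
    (hDn : ∀ j, 1 ≤ j → c (j * n) = ε ^ j) (hDm : ∀ j, 1 ≤ j → c (j * m) = δ ^ j)
    (h1 : c (m - n) = 0) (h2 : c (df m (2 * n)) = 0) : False := by
  have hεs : ∀ j : ℕ, ε ^ (2 * j) = 1 := by
    intro j
    rw [pow_mul]
    rcases hε with rfl | rfl <;> norm_num
  have hδs : ∀ j : ℕ, δ ^ (2 * j) = 1 := by
    intro j
    rw [pow_mul]
    rcases hδ with rfl | rfl <;> norm_num
  set k := 2 * m * n with hk
  have hk1 : ∀ j, 1 ≤ j → c (j * k) = 1 := by
    intro j hj
    have := hDn (j * (2 * m)) (by
      have : 1 ≤ j * (2 * m) := Nat.one_le_iff_ne_zero.2 (by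
        have : 0 < m := by omega
        positivity)
      exact this)
    rw [show j * k = j * (2 * m) * n by rw [hk]; ring, this,
      show j * (2 * m) = 2 * (j * m) by ring, hεs]
  -- the pairings
  have p1 : bil c (far k) (monomial m 1) = 9 * δ := by
    unfold far
    rw [bil_sum_left]
    have e : ∀ j ∈ Finset.range 9, bil c (monomial (j * k) 1) (monomial m 1) = δ := by
      intro j _
      rw [bil_mono]
      rcases Nat.eq_zero_or_pos j with rfl | hj
      · have : df (0 * k) m = 1 * m := by unfold df; omega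
        rw [this, hDm 1 le_rfl]
        ring
      · have hpos : 1 ≤ j * n := Nat.one_le_iff_ne_zero.2 (by
          have : 0 < n := by omega
          positivity)
        have e1 : j * k = 2 * (j * n) * m := by rw [hk]; ring
        have e2 : df (j * k) m = (2 * (j * n) - 1) * m := by
          rw [e1, Nat.sub_mul, one_mul]
          have : m ≤ 2 * (j * n) * m := Nat.le_mul_of_pos_left m (by omega)
          unfold df
          omega
        rw [e2, hDm _ (by omega)]
        have e3 : 2 * (j * n) - 1 = 2 * (j * n - 1) + 1 := by omega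
        rw [e3, pow_succ, hδs]
        ring
    rw [Finset.sum_congr rfl e]
    simp
  have p2 : ∀ a : ℕ, (a = 1 ∨ a = 2) → bil c (far k) (monomial (a * n) 1) = 9 * ε ^ a := by
    intro a ha
    unfold far
    rw [bil_sum_left]
    have e : ∀ j ∈ Finset.range 9, bil c (monomial (j * k) 1) (monomial (a * n) 1) = ε ^ a := by
      intro j _
      rw [bil_mono]
      rcases Nat.eq_zero_or_pos j with rfl | hj
      · have : df (0 * k) (a * n) = a * n := by
          rw [zero_mul]
          unfold df
          omega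
        rw [this, hDn a (by omega)]
        ring
      · have hpos : 1 ≤ j * m := Nat.one_le_iff_ne_zero.2 (by
          have : 0 < m := by omega
          positivity)
        have hpos3 : 3 ≤ j * m := le_trans (by omega) (Nat.le_mul_of_pos_left m hj)
        have e2 : df (j * k) (a * n) = (2 * (j * m) - a) * n := by
          have e1 : j * k = 2 * (j * m) * n := by rw [hk]; ring
          rw [e1, Nat.sub_mul]
          have : a * n ≤ 2 * (j * m) * n := Nat.mul_le_mul_right n (by omega)
          unfold df
          omega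
        rw [e2, hDn _ (by omega)]
        rcases ha with rfl | rfl
        · have e3 : 2 * (j * m) - 1 = 2 * (j * m - 1) + 1 := by omega
          rw [e3, pow_succ, hεs]
          ring
        · have e3 : 2 * (j * m) - 2 = 2 * (j * m - 1) := by omega
          rw [e3, hεs, show (2 : ℕ) = 2 * 1 by norm_num, hεs]
          norm_num
    rw [Finset.sum_congr rfl e]
    simp
  have hcn : c n = ε := by simpa using hDn 1 le_rfl
  have hcm : c m = δ := by simpa using hDm 1 le_rfl
  have hcnn : c (2 * n) = 1 := by
    have := hDn 2 (by norm_num)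
    rw [this]
    rcases hε with rfl | rfl <;> norm_num
  -- the vector
  set W : ℤ[X] := monomial m (3 * δ) + (monomial (1 * n) (3 * ε) + monomial (2 * n) 3) with hW
  have hWW : bil c W W = 72 := by
    rw [hW, bil_add_sq, bil_add_sq, bil_add_right, bil_mono, bil_mono, bil_mono, bil_mono, bil_mono,
      bil_mono]
    have e1 : df m m = 0 := by unfold df; omega
    have e2 : df m (1 * n) = m - n := by unfold df; omega
    have e4 : df (1 * n) (1 * n) = 0 := by unfold df; omega
    have e5 : df (1 * n) (2 * n) = n := by unfold df; omega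
    have e6 : df (2 * n) (2 * n) = 0 := by unfold df; omega
    rw [e1, e2, e4, e5, e6, h0, h1, h2, hcn]
    rcases hε with rfl | rfl <;> rcases hδ with rfl | rfl <;> norm_num
  have hfW : bil c (far k) W = 81 := by
    have hs : ∀ (x : ℤ) (i : ℕ), bil c (far k) (monomial i x) = x * bil c (far k) (monomial i 1) := by
      intro x i
      unfold far
      rw [bil_sum_left, bil_sum_left, Finset.mul_sum]
      refine Finset.sum_congr rfl fun j _ => ?_
      rw [bil_mono, bil_mono]
      ring
    rw [hW, bil_add_right, bil_add_right, hs, hs _ (1 * n), hs _ (2 * n), p1, p2 1 (Or.inl rfl),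
      p2 2 (Or.inr rfl)]
    rcases hε with rfl | rfl <;> rcases hδ with rfl | rfl <;> norm_num
  have hne : W - far k ≠ 0 := by
    intro hcon
    have h3 := congrArg (fun P : ℤ[X] => P.coeff (8 * k)) hcon
    have hk8 : m < 8 * k ∧ 2 * n < 8 * k := by
      have h4 : 1 ≤ m * n := Nat.one_le_iff_ne_zero.2 (by
        have : 0 < m := by omega
        have : 0 < n := by omega
        positivity)
      have h5 : m ≤ m * n := Nat.le_mul_of_pos_right m (by omega)
      have h6 : n ≤ m * n := Nat.le_mul_of_pos_left n (by omega)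
      have h7 : k = 2 * (m * n) := by rw [hk]; ring
      omega
    have hkpos : 0 < k := by omega
    simp only [hW, far, coeff_sub, coeff_add, coeff_monomial, coeff_zero, finsetSum_coeff] at h3
    rw [if_neg (by omega), if_neg (by omega), if_neg (by omega), Finset.sum_eq_single 8] at h3
    · simp at h3
    · intro b _ hb
      rw [if_neg]
      intro hcon
      exact hb (Nat.eq_of_mul_eq_mul_right hkpos hcon)
    · intro h8
      exact absurd (Finset.mem_range.2 (by norm_num)) h8
  have hfin := h _ hne
  rw [bil_sub_sq, bil_symm c W (far k), hWW, hfW, far_sq h0 hk1] at hfin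
  norm_num at hfin

/-- **The classification.** -/
theorem classify (h : Pos c) (h0 : c 0 = 2) :
    (∀ k, 1 ≤ k → c k = 0) ∨ ∃ (n : ℕ) (ε : ℤ), 1 ≤ n ∧ (ε = 1 ∨ ε = -1) ∧
      (∀ m, ¬ n ∣ m → c m = 0) ∧
      ((c n = ε ∧ ∀ j, 2 ≤ j → c (j * n) = 0) ∨ ∀ j, 1 ≤ j → c (j * n) = ε ^ j) := by
  classical
  have hb := bound h h0
  by_cases hz : ∀ k, 1 ≤ k → c k = 0
  · exact Or.inl hz
  right
  have hex : ∃ k, 1 ≤ k ∧ c k ≠ 0 := by
    push Not at hz
    exact hz
  set n := Nat.find hex with hn
  obtain ⟨hn1, hcn⟩ := Nat.find_spec hex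
  rw [← hn] at hn1 hcn
  have hmin : ∀ k, 1 ≤ k → k < n → c k = 0 := by
    intro k hk hkn
    have := Nat.find_min hex hkn
    by_contra hcon
    exact this ⟨hk, hcon⟩
  have hεc : c n = 1 ∨ c n = -1 := by
    rcases hb n hn1 with h1 | h1 | h1
    · exact Or.inr h1
    · exact absurd h1 hcn
    · exact Or.inl h1
  refine ⟨n, c n, hn1, hεc, ?_, (alt h h0 hn1 hεc rfl).imp (fun h => ⟨rfl, h⟩) id⟩
  by_contra hcon
  have hex2 : ∃ m, ¬ n ∣ m ∧ c m ≠ 0 := by
    push Not at hcon
    exact hcon
  set m := Nat.find hex2 with hm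
  obtain ⟨hnd, hcm⟩ := Nat.find_spec hex2
  rw [← hm] at hnd hcm
  have hmin2 : ∀ k, k < m → ¬ n ∣ k → c k = 0 := by
    intro k hk hkn
    have := Nat.find_min hex2 hk
    by_contra hcon
    exact this ⟨hkn, hcon⟩
  have hm0 : 0 < m := by
    rcases Nat.eq_zero_or_pos m with h1 | h1
    · exact absurd (by rw [h1]; exact dvd_zero n) hnd
    · exact h1
  have hnm : n < m := by
    by_contra hle
    push Not at hle
    rcases lt_or_eq_of_le hle with h1 | h1
    · exact hcm (hmin m hm0 h1)
    · exact hnd (by rw [h1])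
  have hn2 : 2 ≤ n := by
    by_contra hlt
    have : n = 1 := by omega
    exact hnd (by rw [this]; exact one_dvd m)
  have hδc : c m = 1 ∨ c m = -1 := by
    rcases hb m hm0 with h1 | h1 | h1
    · exact Or.inr h1
    · exact absurd h1 hcm
    · exact Or.inl h1
  have hmn : c (m - n) = 0 := by
    refine hmin2 _ (by omega) fun hd => hnd ?_
    have := (Nat.dvd_sub_self_right (m := n) (n := m))
    have h2 : n ∣ (m - n) + n := (Nat.dvd_add_right hd).2 dvd_rfl
    rwa [Nat.sub_add_cancel hnm.le] at h2
  have hne : ∀ (a : ℤ) (k : ℕ), (a = 1 ∨ a = -1) → a ^ k ≠ 0 := fun a k ha =>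
    pow_ne_zero _ (by rcases ha with h | h <;> rw [h] <;> norm_num)
  rcases alt h h0 hn1 hεc rfl with hA | hD <;> rcases alt h h0 hm0 hδc rfl with hA' | hD'
  · exact no_two h h0 hn1 hnm hεc hδc rfl rfl hA hA' hmn
  · have h1 := hA m (by omega)
    have h2 := hD' n (by omega)
    rw [mul_comm] at h1
    exact hne _ n hδc (h2.symm.trans h1)
  · have h1 := hA' n hn2
    have h2 := hD m (by omega)
    rw [mul_comm] at h1
    exact hne _ m hεc (h2.symm.trans h1)
  · refine no_two_D h h0 hn2 hnm (fun hcon => hnd (by rw [hcon]; exact dvd_mul_left n 2)) hεc hδc hD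
      hD' hmn ?_
    have hlt : df m (2 * n) < m := by unfold df; omega
    refine hmin2 _ hlt fun hd => hnd ?_
    unfold df at hd
    rcases le_total m (2 * n) with hle | hle
    · rw [Nat.sub_eq_zero_of_le hle, zero_add] at hd
      have h2 : n ∣ 2 * n - (2 * n - m) := Nat.dvd_sub (dvd_mul_left n 2) hd
      have h3 : 2 * n - (2 * n - m) = m := by omega
      rwa [h3] at h2
    · rw [Nat.sub_eq_zero_of_le hle, add_zero] at hd
      have h2 : n ∣ (m - 2 * n) + 2 * n := (Nat.dvd_add_right hd).2 (dvd_mul_left n 2)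
      rwa [Nat.sub_add_cancel hle] at h2

end Pool.Agent.X303.SQ
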