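import Pool.Agent.X303.SC.LawDefs

/-! The laws of rank two: definitions. -/

set_option autoImplicit false

namespace Pool.Agent.X303.SQ

/-- The mean value of `f(2 cos θ)` over `[0, π]` for the measure `(1 + ε cos(nθ)) dθ / π`.  For
`ε = 0` this is the uniform distribution of the angle, the law of an elliptic curve with complex
multiplication defined over `K`; for `n = 2` and `ε = -1` it is the Sato–Tate law. -/
noncomputable def cosLaw (n : ℕ) (ε : ℤ) (f : ℝ → ℝ) : ℝ :=
  1 / Real.pi * ∫ θ in (0 : ℝ)..Real.pi, f (2 * Real.cos θ) * (1 + ε * Real.cos (n * θ))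

/-- One half of the mean value of `f(2 cos θ)` for the uniform distribution of the angle `θ`, and one
half of the mean value of `f(2 cos θ)` over the `n` angles `(2j + a)π/n`, `0 ≤ j < n`.  For `n = 2` and
`a = 1` it is the law of an elliptic curve with complex multiplication not defined over `K`. -/
noncomputable def mixedLaw (n a : ℕ) (f : ℝ → ℝ) : ℝ :=
  1 / (2 * Real.pi) * (∫ θ in (0 : ℝ)..Real.pi, f (2 * Real.cos θ)) +
    1 / (2 * n) * ∑ j ∈ Finset.range n, f (2 * Real.cos ((2 * j + a) * Real.pi / n))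

/-- The laws with a continuous part: `(1 + ε cos(nθ)) dθ / π` with `ε = -1, 0, 1`, and the laws
`mixedLaw n a` with `a = 0, 1`, for `n ≥ 1`. -/
def IsLaw (L : (ℝ → ℝ) → ℝ) : Prop :=
  ∃ n : ℕ, 1 ≤ n ∧ ((∃ ε : ℤ, (ε = -1 ∨ ε = 0 ∨ ε = 1) ∧ L = cosLaw n ε) ∨
    ∃ a : ℕ, (a = 0 ∨ a = 1) ∧ L = mixedLaw n a)

/-- The orders `k_r` are determined by the law `L`: `k_r` is minus the mean value of `x^r` for all
`r ≥ 1`.  Moreover if `k₂ ≥ -1` then `k_r = 0` for all odd `r`, and either `L` is the Sato–Tate law and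
`k_{2m}` is minus the Catalan number, or `L` is the law of the normaliser of a torus and `k_{2m}` is minus
one half of the central binomial coefficient (`m ≥ 1`). -/
def Orders (k : ℕ → ℤ) (L : (ℝ → ℝ) → ℝ) : Prop :=
  (∀ r, 1 ≤ r → (k r : ℝ) = -L fun x => x ^ r) ∧
  (-1 ≤ k 2 → (∀ m, k (2 * m + 1) = 0) ∧
    ((L = Pool.Agent.X303.SC.satoTate ∧ ∀ m, 1 ≤ m → k (2 * m) = -(catalan m : ℤ)) ∨
      (L = Pool.Agent.X303.SC.normaliserLaw ∧
        ∀ m, 1 ≤ m → 2 * k (2 * m) = -(m.centralBinom : ℤ))))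

end Pool.Agent.X303.SQ
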