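import Pool.Agent.X303.SQ.LawDefs2
import Pool.Agent.X303.SQ.Gen
import Pool.Agent.X303.SC.Equi

/-! The laws of rank two. -/

set_option autoImplicit false

namespace Pool.Agent.X303.SQ

open Filter Topology NumberField IsDedekindDomain Pool.Agent.W353.L1 Polynomial Pool.Agent.X303.SC

theorem cosLaw_mean {n : ℕ} (hn : 1 ≤ n) {ε : ℤ} (hε : ε = -1 ∨ ε = 0 ∨ ε = 1) :
    MeanFun (cosLaw n ε) where
  add f g hf hg := by
    unfold cosLaw
    rw [← mul_add, ← intervalIntegral.integral_add
      (Continuous.intervalIntegrable (by fun_prop) _ _)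
      (Continuous.intervalIntegrable (by fun_prop) _ _)]
    congr 2
    funext θ
    ring
  mul c f hf := by
    unfold cosLaw
    have : (∫ θ in (0 : ℝ)..Real.pi, c * f (2 * Real.cos θ) * (1 + ε * Real.cos (n * θ))) =
        c * ∫ θ in (0 : ℝ)..Real.pi, f (2 * Real.cos θ) * (1 + ε * Real.cos (n * θ)) := by
      rw [← intervalIntegral.integral_const_mul]
      congr 1
      funext θ
      ring
    rw [this]
    ring
  near f g η hf hg hη h := by
    unfold cosLaw
    rw [← mul_sub, ← intervalIntegral.integral_sub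
      (Continuous.intervalIntegrable (by fun_prop) _ _)
      (Continuous.intervalIntegrable (by fun_prop) _ _)]
    have hpi := Real.pi_pos
    have hI : ∫ θ in (0 : ℝ)..Real.pi, η * (1 + ε * Real.cos (n * θ)) = η * Real.pi := by
      rw [intervalIntegral.integral_const_mul, intervalIntegral.integral_add
        (Continuous.intervalIntegrable (by fun_prop) _ _)
        (Continuous.intervalIntegrable (by fun_prop) _ _), intervalIntegral.integral_const_mul]
      have h1 := int_cos (n : ℤ)
      rw [if_neg (by omega)] at h1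
      have h2 : ∫ θ in (0 : ℝ)..Real.pi, Real.cos ((n : ℝ) * θ) = 0 := by
        refine Eq.trans ?_ h1
        congr 1
      rw [h2]
      simp
    have hw : ∀ θ : ℝ, 0 ≤ 1 + (ε : ℝ) * Real.cos (n * θ) := by
      intro θ
      have h1 := Real.neg_one_le_cos (n * θ)
      have h2 := Real.cos_le_one (n * θ)
      rcases hε with rfl | rfl | rfl <;> push_cast <;> linarith
    have h1 : ‖∫ θ in (0 : ℝ)..Real.pi, (f (2 * Real.cos θ) * (1 + ε * Real.cos (n * θ)) -
        g (2 * Real.cos θ) * (1 + ε * Real.cos (n * θ)))‖ ≤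
          ∫ θ in (0 : ℝ)..Real.pi, η * (1 + ε * Real.cos (n * θ)) := by
      refine intervalIntegral.norm_integral_le_of_norm_le hpi.le
        (MeasureTheory.ae_of_all _ fun θ _ => ?_)
        (Continuous.intervalIntegrable (by fun_prop) _ _)
      rw [← sub_mul, norm_mul, Real.norm_eq_abs, Real.norm_eq_abs, abs_of_nonneg (hw θ)]
      exact mul_le_mul_of_nonneg_right (h _ cos_two) (hw θ)
    rw [hI, Real.norm_eq_abs] at h1
    rw [abs_mul, abs_of_pos (by positivity : 0 < 1 / Real.pi)]
    refine (mul_le_mul_of_nonneg_left h1 (by positivity)).trans (le_of_eq ?_)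
    field_simp

theorem cosLaw_C {n : ℕ} (hn : 1 ≤ n) (ε : ℤ) (k : ℕ) :
    cosLaw n ε (fun x => (Chebyshev.C ℝ k).eval x) =
    if k = 0 then 2 else if k = n then (ε : ℝ) else 0 := by
  unfold cosLaw
  have e : (∫ θ in (0 : ℝ)..Real.pi,
      (Chebyshev.C ℝ k).eval (2 * Real.cos θ) * (1 + ε * Real.cos (n * θ))) =
      2 * (∫ θ in (0 : ℝ)..Real.pi, Real.cos ((k : ℤ) * θ)) +
        ε * (∫ θ in (0 : ℝ)..Real.pi, Real.cos (((k : ℤ) + n : ℤ) * θ)) +
        ε * (∫ θ in (0 : ℝ)..Real.pi, Real.cos (((k : ℤ) - n : ℤ) * θ)) := by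
    rw [← intervalIntegral.integral_const_mul, ← intervalIntegral.integral_const_mul,
      ← intervalIntegral.integral_const_mul,
      ← intervalIntegral.integral_add (Continuous.intervalIntegrable (by fun_prop) _ _)
        (Continuous.intervalIntegrable (by fun_prop) _ _),
      ← intervalIntegral.integral_add (Continuous.intervalIntegrable (by fun_prop) _ _)
        (Continuous.intervalIntegrable (by fun_prop) _ _)]
    congr 1
    funext θ
    rw [Chebyshev.C_two_mul_real_cos]
    have e1 : Real.cos ((((k : ℤ) + n : ℤ) : ℝ) * θ) = Real.cos ((k : ℤ) * θ) * Real.cos (n * θ) -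
        Real.sin ((k : ℤ) * θ) * Real.sin (n * θ) := by
      rw [← Real.cos_add]
      congr 1
      push_cast
      ring
    have e2 : Real.cos ((((k : ℤ) - n : ℤ) : ℝ) * θ) = Real.cos ((k : ℤ) * θ) * Real.cos (n * θ) +
        Real.sin ((k : ℤ) * θ) * Real.sin (n * θ) := by
      rw [← Real.cos_sub]
      congr 1
      push_cast
      ring
    rw [e1, e2]
    ring
  rw [e, int_cos, int_cos, int_cos]
  have hpi := Real.pi_pos
  by_cases h0 : k = 0
  · subst h0
    rw [if_pos (by norm_num), if_neg (by omega), if_neg (by omega), if_pos rfl]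
    field_simp
    ring
  · by_cases h2 : k = n
    · subst h2
      rw [if_neg (by omega), if_neg (by omega), if_pos (by omega), if_neg h0, if_pos rfl]
      field_simp
      ring
    · rw [if_neg (by omega), if_neg (by omega), if_neg (by omega), if_neg h0, if_neg h2]
      ring

theorem mixedLaw_mean {n : ℕ} (hn : 1 ≤ n) (a : ℕ) : MeanFun (mixedLaw n a) where
  add f g hf hg := by
    unfold mixedLaw
    rw [intervalIntegral.integral_add
      (Continuous.intervalIntegrable (by fun_prop) _ _)
      (Continuous.intervalIntegrable (by fun_prop) _ _), Finset.sum_add_distrib]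
    ring
  mul c f hf := by
    unfold mixedLaw
    rw [intervalIntegral.integral_const_mul, ← Finset.mul_sum]
    ring
  near f g η hf hg hη h := by
    unfold mixedLaw
    have hpi := Real.pi_pos
    have hn0 : (0 : ℝ) < n := by exact_mod_cast hn
    have hI : ∫ θ in (0 : ℝ)..Real.pi, η = η * Real.pi := by
      rw [intervalIntegral.integral_const, smul_eq_mul]
      ring
    have h1 : ‖∫ θ in (0 : ℝ)..Real.pi, (f (2 * Real.cos θ) - g (2 * Real.cos θ))‖ ≤
        ∫ θ in (0 : ℝ)..Real.pi, η := by
      refine intervalIntegral.norm_integral_le_of_norm_le hpi.le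
        (MeasureTheory.ae_of_all _ fun θ _ => ?_)
        (Continuous.intervalIntegrable (by fun_prop) _ _)
      rw [Real.norm_eq_abs]
      exact h _ cos_two
    rw [hI, Real.norm_eq_abs, intervalIntegral.integral_sub
        (Continuous.intervalIntegrable (by fun_prop) _ _)
        (Continuous.intervalIntegrable (by fun_prop) _ _)] at h1
    have h0 : |∑ j ∈ Finset.range n, f (2 * Real.cos ((2 * j + a) * Real.pi / n)) -
        ∑ j ∈ Finset.range n, g (2 * Real.cos ((2 * j + a) * Real.pi / n))| ≤ n * η := by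
      rw [← Finset.sum_sub_distrib]
      refine (Finset.abs_sum_le_sum_abs _ _).trans ?_
      refine (Finset.sum_le_sum fun j _ => h _ cos_two).trans (le_of_eq ?_)
      rw [Finset.sum_const, Finset.card_range, nsmul_eq_mul]
    set I1 := ∫ θ in (0 : ℝ)..Real.pi, f (2 * Real.cos θ)
    set I2 := ∫ θ in (0 : ℝ)..Real.pi, g (2 * Real.cos θ)
    set S1 := ∑ j ∈ Finset.range n, f (2 * Real.cos ((2 * j + a) * Real.pi / n))
    set S2 := ∑ j ∈ Finset.range n, g (2 * Real.cos ((2 * j + a) * Real.pi / n))
    have e : 1 / (2 * Real.pi) * I1 + 1 / (2 * (n : ℝ)) * S1 -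
        (1 / (2 * Real.pi) * I2 + 1 / (2 * (n : ℝ)) * S2) =
        1 / (2 * Real.pi) * (I1 - I2) + 1 / (2 * (n : ℝ)) * (S1 - S2) := by ring
    rw [e]
    refine (abs_add_le _ _).trans ?_
    rw [abs_mul, abs_mul, abs_of_pos (by positivity : 0 < 1 / (2 * Real.pi)),
      abs_of_pos (by positivity : 0 < 1 / (2 * (n : ℝ)))]
    have h2 : 1 / (2 * Real.pi) * |I1 - I2| ≤ 1 / (2 * Real.pi) * (η * Real.pi) :=
      mul_le_mul_of_nonneg_left h1 (by positivity)
    have h3 : 1 / (2 * Real.pi) * (η * Real.pi) = η / 2 := by field_simp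
    have h4 : 1 / (2 * (n : ℝ)) * |S1 - S2| ≤ 1 / (2 * (n : ℝ)) * (n * η) :=
      mul_le_mul_of_nonneg_left h0 (by positivity)
    have h5 : 1 / (2 * (n : ℝ)) * (n * η) = η / 2 := by field_simp
    linarith

theorem sum_cos {n : ℕ} (hn : 1 ≤ n) (a k : ℕ) :
    ∑ j ∈ Finset.range n, Real.cos ((k : ℤ) * ((2 * j + a) * Real.pi / n)) =
      if n ∣ k then (n : ℝ) * (-1) ^ (a * (k / n)) else 0 := by
  have hn0 : (n : ℝ) ≠ 0 := by exact_mod_cast (show n ≠ 0 by omega)
  have hn0' : (n : ℂ) ≠ 0 := by exact_mod_cast (show n ≠ 0 by omega)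
  set w : ℂ := Complex.exp (k * (2 * Real.pi * Complex.I) / n) with hw
  set u : ℂ := Complex.exp (k * (a * Real.pi * Complex.I) / n) with hu
  have e1 : ∀ j : ℕ, Real.cos ((k : ℤ) * ((2 * j + a) * Real.pi / n)) = (u * w ^ j).re := by
    intro j
    rw [hw, hu, ← Complex.exp_nat_mul, ← Complex.exp_add]
    have : (k * (a * Real.pi * Complex.I) / n + j * (k * (2 * Real.pi * Complex.I) / n) : ℂ) =
        (((k : ℤ) * ((2 * j + a) * Real.pi / n) : ℝ) : ℂ) * Complex.I := by
      push_cast
      field_simp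
      ring
    rw [this, Complex.exp_ofReal_mul_I_re]
  rw [Finset.sum_congr rfl fun j _ => e1 j, ← Complex.re_sum, ← Finset.mul_sum]
  split_ifs with hd
  · obtain ⟨m, rfl⟩ := hd
    have hw1 : w = 1 := by
      rw [hw, Complex.exp_eq_one_iff]
      refine ⟨m, ?_⟩
      push_cast
      field_simp
    have hu1 : u = (((-1 : ℝ) ^ (a * m) : ℝ) : ℂ) := by
      rw [hu]
      have : (((n * m : ℕ) : ℂ) * (a * Real.pi * Complex.I) / n : ℂ) =
          ((a * m : ℕ) : ℂ) * (Real.pi * Complex.I) := by
        push_cast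
        field_simp
      rw [this, Complex.exp_nat_mul, Complex.exp_pi_mul_I]
      push_cast
      rfl
    rw [hw1, hu1, Nat.mul_div_cancel_left m (by omega)]
    simp only [one_pow, Finset.sum_const, Finset.card_range, nsmul_eq_mul, mul_one]
    rw [← Complex.ofReal_natCast, ← Complex.ofReal_mul, Complex.ofReal_re]
    ring
  · have hw1 : w ≠ 1 := by
      intro hcon
      rw [hw, Complex.exp_eq_one_iff] at hcon
      obtain ⟨m, hm⟩ := hcon
      have h2 : (2 * Real.pi * Complex.I : ℂ) ≠ 0 := Complex.two_pi_I_ne_zero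
      have h3 : (k : ℂ) = m * n := by
        field_simp at hm
        rw [hm]
        ring
      have h5 : (k : ℤ) = m * n := by exact_mod_cast h3
      exact hd (Int.natCast_dvd_natCast.1 ⟨m, by rw [h5]; ring⟩)
    have hwn : w ^ n = 1 := by
      rw [hw, ← Complex.exp_nat_mul, Complex.exp_eq_one_iff]
      refine ⟨k, ?_⟩
      push_cast
      field_simp
    rw [geom_sum_eq hw1, hwn, sub_self, zero_div, mul_zero, Complex.zero_re]

theorem mixedLaw_C {n : ℕ} (hn : 1 ≤ n) (a k : ℕ) :
    mixedLaw n a (fun x => (Chebyshev.C ℝ k).eval x) =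
    (if k = 0 then 1 else 0) + if n ∣ k then (-1) ^ (a * (k / n)) else 0 := by
  unfold mixedLaw
  have hn0 : (n : ℝ) ≠ 0 := by exact_mod_cast (show n ≠ 0 by omega)
  have e : (∫ θ in (0 : ℝ)..Real.pi, (Chebyshev.C ℝ k).eval (2 * Real.cos θ)) =
      2 * ∫ θ in (0 : ℝ)..Real.pi, Real.cos ((k : ℤ) * θ) := by
    rw [← intervalIntegral.integral_const_mul]
    congr 1
    funext θ
    rw [Chebyshev.C_two_mul_real_cos]
  have e2 : ∑ j ∈ Finset.range n,
      (Chebyshev.C ℝ k).eval (2 * Real.cos ((2 * j + a) * Real.pi / n)) =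
      2 * ∑ j ∈ Finset.range n, Real.cos ((k : ℤ) * ((2 * j + a) * Real.pi / n)) := by
    rw [Finset.mul_sum]
    refine Finset.sum_congr rfl fun j _ => ?_
    rw [Chebyshev.C_two_mul_real_cos]
  beta_reduce
  rw [e, e2, int_cos, sum_cos hn]
  have hpi := Real.pi_pos
  congr 1
  · by_cases h0 : k = 0
    · subst h0
      simp
      field_simp
    · rw [if_neg (by omega), if_neg h0]
      ring
  · split_ifs
    · field_simp
    · ring

variable {K : Type} [Field K] [NumberField K]
  {t : HeightOneSpectrum (𝓞 K) → ℝ} {M : ℕ → ℤ}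

/-- **The laws.** -/
theorem Tr_law (h : Tr t M) :
    (∃ n, 1 ≤ n ∧ cM M n = 2) ∨ ∃ L : (ℝ → ℝ) → ℝ, IsLaw L ∧
      ∀ f : ℝ → ℝ, Continuous f → Has (fun v => f (t v)) (L f) := by
  have h0 := cM_zero M h.zero
  by_cases hp : Pos (cM M)
  · right
    rcases classify hp h0 with hz | ⟨n, ε, hn, hε, hnd, hA | hD⟩
    · refine ⟨cosLaw 1 0, ⟨1, le_rfl, Or.inl ⟨0, by norm_num, rfl⟩⟩, fun f hf =>
        h.equi (cosLaw_mean le_rfl (by norm_num)) (fun k => ?_) hf⟩
      rw [cosLaw_C le_rfl]
      by_cases hk : k = 0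
      · subst hk
        rw [if_pos rfl, h0]
        norm_num
      · rw [if_neg hk, hz k (by omega)]
        simp
    · have hε' : ε = -1 ∨ ε = 0 ∨ ε = 1 := by
        rcases hε with h | h
        · exact Or.inr (Or.inr h)
        · exact Or.inl h
      refine ⟨cosLaw n ε, ⟨n, hn, Or.inl ⟨ε, hε', rfl⟩⟩, fun f hf =>
        h.equi (cosLaw_mean hn hε') (fun k => ?_) hf⟩
      rw [cosLaw_C hn]
      by_cases hk : k = 0
      · subst hk
        rw [if_pos rfl, h0]
        norm_num
      · rw [if_neg hk]
        by_cases hkn : k = n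
        · rw [if_pos hkn, hkn, hA.1]
        · rw [if_neg hkn]
          by_cases hd : n ∣ k
          · obtain ⟨j, rfl⟩ := hd
            have h2 : 2 ≤ j := by
              rcases Nat.lt_or_ge j 2 with h | h
              · exfalso
                interval_cases j
                · exact hk (by ring)
                · exact hkn (by ring)
              · exact h
            rw [mul_comm, hA.2 j h2]
            norm_num
          · rw [hnd k hd]
            norm_num
    · obtain ⟨a, ha, hεa⟩ : ∃ a : ℕ, (a = 0 ∨ a = 1) ∧ ε = (-1) ^ a := by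
        rcases hε with h | h
        · exact ⟨0, Or.inl rfl, by rw [h]; norm_num⟩
        · exact ⟨1, Or.inr rfl, by rw [h]; norm_num⟩
      refine ⟨mixedLaw n a, ⟨n, hn, Or.inr ⟨a, ha, rfl⟩⟩, fun f hf =>
        h.equi (mixedLaw_mean hn a) (fun k => ?_) hf⟩
      rw [mixedLaw_C hn]
      by_cases hk : k = 0
      · subst hk
        rw [if_pos rfl, if_pos (dvd_zero n), h0]
        norm_num
      · rw [if_neg hk, zero_add]
        by_cases hd : n ∣ k
        · obtain ⟨j, rfl⟩ := hd
          have h1 : 1 ≤ j := by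
            rcases Nat.eq_zero_or_pos j with h | h
            · exact absurd (by rw [h]; ring) hk
            · exact h
          rw [if_pos (dvd_mul_right n j), Nat.mul_div_cancel_left j (by omega), mul_comm n j,
            hD j h1, hεa, ← pow_mul]
          push_cast
          rfl
        · rw [if_neg hd, hnd k hd]
          norm_num
  · exact Or.inl (degenerate h.psd h0 hp)

end Pool.Agent.X303.SQ
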