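import Pool.Agent.X303.SQ.Laws
import Pool.Agent.X303.SC.Half

/-! The laws of rank two for `H^i(X)` and for one half of `H^i(X)`. -/

set_option autoImplicit false

namespace Pool.Agent.X303.SQ

open Filter Topology NumberField IsDedekindDomain Pool.Agent.W353.L1 Polynomial Pool.Agent.X303.SC
open Pool.Agent.W353.PV (tF)
open Pool.Agent.W353.EH (HasOrder)
open Pool.Agent.Y139.SM (IsPowerSystem)
open Pool.Agent.W401.Cheb Pool.Agent.W540.BE

theorem cosLaw_two : cosLaw 2 (-1) = satoTate := by
  funext f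
  unfold cosLaw satoTate
  have e : (∫ θ in (0 : ℝ)..Real.pi,
      f (2 * Real.cos θ) * (1 + ((-1 : ℤ) : ℝ) * Real.cos ((2 : ℕ) * θ))) =
      ∫ θ in (0 : ℝ)..Real.pi, 2 * (f (2 * Real.cos θ) * Real.sin θ ^ 2) := by
    congr 1
    funext θ
    push_cast
    rw [Real.cos_two_mul, Real.sin_sq]
    ring
  rw [e, intervalIntegral.integral_const_mul]
  ring

theorem mixedLaw_two : mixedLaw 2 1 = normaliserLaw := by
  funext f
  unfold mixedLaw normaliserLaw
  have h1 : Real.cos ((2 * ((0 : ℕ) : ℝ) + (1 : ℕ)) * Real.pi / (2 : ℕ)) = 0 := by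
    have : (2 * ((0 : ℕ) : ℝ) + (1 : ℕ)) * Real.pi / (2 : ℕ) = Real.pi / 2 := by
      push_cast
      ring
    rw [this, Real.cos_pi_div_two]
  have h2 : Real.cos ((2 * ((1 : ℕ) : ℝ) + (1 : ℕ)) * Real.pi / (2 : ℕ)) = 0 := by
    have : (2 * ((1 : ℕ) : ℝ) + (1 : ℕ)) * Real.pi / (2 : ℕ) = Real.pi / 2 + Real.pi := by
      push_cast
      ring
    rw [this, Real.cos_add_pi, Real.cos_pi_div_two, neg_zero]
  rw [Finset.sum_range_succ, Finset.sum_range_one, h1, h2, mul_zero]
  push_cast
  ring

section
variable {K : Type} [Field K] [NumberField K]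
  {t : HeightOneSpectrum (𝓞 K) → ℝ} {M : ℕ → ℤ}

/-- **The laws and the orders.** -/
theorem Tr_main (h : Tr t M) {k : ℕ → ℤ} (hk : ∀ r, 1 ≤ r → k r = -M r) :
    (∃ n, 1 ≤ n ∧ cM M n = 2) ∨ ∃ L : (ℝ → ℝ) → ℝ, IsLaw L ∧
      (∀ f : ℝ → ℝ, Continuous f → Has (fun v => f (t v)) (L f)) ∧ Orders k L := by
  have h0 := cM_zero M h.zero
  by_cases hp : Pos (cM M)
  · right
    have h2 := cM_two M h.zero
    have key : ∀ L : (ℝ → ℝ) → ℝ, IsLaw L → MeanFun L →
        (∀ k : ℕ, L (fun x => (Chebyshev.C ℝ k).eval x) = cM M k) →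
        (-1 ≤ k 2 → (∀ m, cM M (2 * m + 1) = 0) ∧
          ((L = satoTate ∧ cM M 2 = -1 ∧ ∀ j, 2 ≤ j → cM M (2 * j) = 0) ∨
            (L = normaliserLaw ∧ ∀ j, 1 ≤ j → cM M (2 * j) = (-1) ^ j))) →
        ∃ L : (ℝ → ℝ) → ℝ, IsLaw L ∧
          (∀ f : ℝ → ℝ, Continuous f → Has (fun v => f (t v)) (L f)) ∧ Orders k L := by
      intro L hL hm hC hor
      have hf : ∀ f : ℝ → ℝ, Continuous f → Has (fun v => f (t v)) (L f) :=
        fun f hf => h.equi hm hC hf
      refine ⟨L, hL, hf, fun r hr => ?_, fun hk2 => ?_⟩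
      · have h3 := has_unique (h.2 r) (hf (fun x => x ^ r) (by fun_prop))
        rw [hk r hr, ← h3]
        push_cast
        rfl
      · obtain ⟨ho, h3⟩ := hor hk2
        refine ⟨fun m => ?_, ?_⟩
        · rw [hk _ (by omega), odd_moment ho, neg_zero]
        · rcases h3 with ⟨h4, h5, h6⟩ | ⟨h4, h5⟩
          · left
            refine ⟨h4, fun m hm => ?_⟩
            rw [hk _ (by omega), even_A h0 h5 h6]
          · right
            refine ⟨h4, fun m hm => ?_⟩
            have := even_D h0 h5 hm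
            rw [hk _ (by omega)]
            linarith
    rcases classify hp h0 with hz | ⟨n, ε, hn, hε, hnd, hA | hD⟩
    · refine key (cosLaw 1 0) ⟨1, le_rfl, Or.inl ⟨0, by norm_num, rfl⟩⟩
        (cosLaw_mean le_rfl (by norm_num)) (fun k => ?_) fun hk2 => ?_
      · rw [cosLaw_C le_rfl]
        by_cases hk : k = 0
        · subst hk
          rw [if_pos rfl, h0]
          norm_num
        · rw [if_neg hk, hz k (by omega)]
          simp
      · exfalso
        have := hz 2 (by norm_num)
        rw [hk 2 (by norm_num)] at hk2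
        omega
    · have hε' : ε = -1 ∨ ε = 0 ∨ ε = 1 := by
        rcases hε with h | h
        · exact Or.inr (Or.inr h)
        · exact Or.inl h
      refine key (cosLaw n ε) ⟨n, hn, Or.inl ⟨ε, hε', rfl⟩⟩ (cosLaw_mean hn hε') (fun k => ?_)
        fun hk2 => ?_
      · rw [cosLaw_C hn]
        by_cases hk : k = 0
        · subst hk
          rw [if_pos rfl, h0]
          norm_num
        · rw [if_neg hk]
          by_cases hkn : k = n
          · rw [if_pos hkn, hkn, hA.1]
          · rw [if_neg hkn]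
            by_cases hd : n ∣ k
            · obtain ⟨j, rfl⟩ := hd
              have h2 : 2 ≤ j := by
                rcases Nat.lt_or_ge j 2 with h | h
                · exfalso
                  interval_cases j
                  · exact hk (by ring)
                  · exact hkn (by ring)
                · exact h
              rw [mul_comm, hA.2 j h2]
              norm_num
            · rw [hnd k hd]
              norm_num
      · have hc2 : cM M 2 ≤ -1 := by
          rw [hk 2 (by norm_num)] at hk2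
          omega
        have hn2 : n = 2 ∧ ε = -1 := by
          by_cases hd : n ∣ 2
          · have h3 : n = 1 ∨ n = 2 := (Nat.dvd_prime Nat.prime_two).1 hd
            rcases h3 with rfl | rfl
            · have := hA.2 2 le_rfl
              rw [mul_one] at this
              omega
            · refine ⟨rfl, ?_⟩
              have := hA.1
              rcases hε with h | h <;> omega
          · have := hnd 2 hd
            omega
        obtain ⟨rfl, rfl⟩ := hn2
        refine ⟨fun m => hnd _ (by omega), Or.inl ⟨cosLaw_two, hA.1, fun j hj => ?_⟩⟩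
        rw [mul_comm]
        exact hA.2 j hj
    · obtain ⟨a, ha, hεa⟩ : ∃ a : ℕ, (a = 0 ∨ a = 1) ∧ ε = (-1) ^ a := by
        rcases hε with h | h
        · exact ⟨0, Or.inl rfl, by rw [h]; norm_num⟩
        · exact ⟨1, Or.inr rfl, by rw [h]; norm_num⟩
      refine key (mixedLaw n a) ⟨n, hn, Or.inr ⟨a, ha, rfl⟩⟩ (mixedLaw_mean hn a) (fun k => ?_)
        fun hk2 => ?_
      · rw [mixedLaw_C hn]
        by_cases hk : k = 0
        · subst hk
          rw [if_pos rfl, if_pos (dvd_zero n), h0]
          norm_num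
        · rw [if_neg hk, zero_add]
          by_cases hd : n ∣ k
          · obtain ⟨j, rfl⟩ := hd
            have h1 : 1 ≤ j := by
              rcases Nat.eq_zero_or_pos j with h | h
              · exact absurd (by rw [h]; ring) hk
              · exact h
            rw [if_pos (dvd_mul_right n j), Nat.mul_div_cancel_left j (by omega), mul_comm n j,
              hD j h1, hεa, ← pow_mul]
            push_cast
            rfl
          · rw [if_neg hd, hnd k hd]
            norm_num
      · have hc2 : cM M 2 ≤ -1 := by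
          rw [hk 2 (by norm_num)] at hk2
          omega
        have hn2 : n = 2 ∧ ε = -1 := by
          by_cases hd : n ∣ 2
          · have h3 : n = 1 ∨ n = 2 := (Nat.dvd_prime Nat.prime_two).1 hd
            rcases h3 with rfl | rfl
            · exfalso
              have := hD 2 (by norm_num)
              rw [mul_one] at this
              rcases hε with h | h <;> rw [h] at this <;> norm_num at this <;> omega
            · refine ⟨rfl, ?_⟩
              have := hD 1 le_rfl
              rw [one_mul, pow_one] at this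
              rcases hε with h | h <;> omega
          · have := hnd 2 hd
            omega
        obtain ⟨rfl, rfl⟩ := hn2
        have ha1 : a = 1 := by
          rcases ha with h | h
          · rw [h] at hεa
            norm_num at hεa
          · exact h
        subst ha1
        refine ⟨fun m => hnd _ (by omega), Or.inr ⟨mixedLaw_two, fun j hj => ?_⟩⟩
        rw [mul_comm]
        exact hD j hj
  · exact Or.inl (degenerate h.psd h0 hp)
end

variable {K : Type} [Field K] [NumberField K] {l : ℕ} {X : Set (MvPolynomial (Fin l) (𝓞 K))}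
  {d i : ℕ}

open Classical in
/-- **All laws of rank two.** -/
theorem rankTwoLaws (hi : i ≤ 2 * d) {t : HeightOneSpectrum (𝓞 K) → ℝ} (ht : IsTrace X d i 2 t)
    {k : ℕ → ℤ} (hk : ∀ r, 1 ≤ r → ∃ B : HeightOneSpectrum (𝓞 K) → ℂ[X],
      IsPowerSystem X d i 2 r (1 : Representation ℂ (GK K) (Fin 1 → ℂ)) B ∧
        (HasOrder (r * i) 0 B (k r) ∨ HasSize (r * i) B (k r))) :
    (∃ n : ℕ, 1 ≤ n ∧ ∀ δ : ℝ, 0 < δ →
      DensityZero {v | ∀ j : ℤ, δ ≤ |t v - 2 * Real.cos (2 * Real.pi * j / n)|}) ∨
    ∃ L : (ℝ → ℝ) → ℝ, IsLaw L ∧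
      (∀ f : ℝ → ℝ, Continuous f → HasMean (fun v => f (t v)) (L f)) ∧ Orders k L := by
  set M : ℕ → ℤ := fun r => if r = 0 then 1 else -k r with hM
  have hTr : Tr (tF X d i 2 K) M := by
    refine ⟨fun v => ?_, fun r => ?_⟩
    · have := abs_tr_le (F := K) ((i : ℝ) / 2) (Pool.Agent.W353.PV.alp X d i 2 K) v
      exact_mod_cast this
    · by_cases hr : r = 0
      · subst hr
        refine has_one.congr (fun v => by rw [pow_zero]) ?_
        rw [hM]
        norm_num
      · obtain ⟨B, hB, hkB⟩ := hk r (by omega)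
        refine (has_power hi hB hkB).congr (fun v => rfl) ?_
        rw [hM]
        simp only [if_neg hr]
        push_cast
        rfl
  have hte := isTrace_eq hi ht
  have hMk : ∀ r, 1 ≤ r → k r = -M r := by
    intro r hr
    rw [hM]
    simp only [if_neg (show r ≠ 0 by omega)]
    ring
  rcases Tr_main hTr hMk with ⟨n, hn1, hn⟩ | ⟨L, hL, hf, ho⟩
  · left
    refine ⟨n, hn1, fun δ hδ => ?_⟩
    refine hasMean_of_has (has_cofinite (hTr.near hn1 hn hδ) (hte.mono fun v hv => ?_))
    simp only [Set.mem_ofPred_eq, hv]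
  · right
    exact ⟨L, hL, fun f hf' => hasMean_of_has (has_cofinite (hf f hf')
      (hte.mono fun v hv => by rw [hv])), ho⟩

open Classical in
/-- **All laws for squares of Frobenius polynomials.** -/
theorem halfLaws (hi : i ≤ 2 * d) {t : HeightOneSpectrum (𝓞 K) → ℝ}
    (ht : IsHalfTrace X d i t) {k : ℕ → ℤ}
    (hk : ∀ r, 1 ≤ r → ∃ B : HeightOneSpectrum (𝓞 K) → ℂ[X], IsHalfPower X d i r B ∧
      (HasOrder (r * i) 0 B (k r) ∨ HasSize (r * i) B (k r))) :
    (∃ n : ℕ, 1 ≤ n ∧ ∀ δ : ℝ, 0 < δ →
      DensityZero {v | ∀ j : ℤ, δ ≤ |t v - 2 * Real.cos (2 * Real.pi * j / n)|}) ∨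
    ∃ L : (ℝ → ℝ) → ℝ, IsLaw L ∧
      (∀ f : ℝ → ℝ, Continuous f → HasMean (fun v => f (t v)) (L f)) ∧ Orders k L := by
  set T : HeightOneSpectrum (𝓞 K) → ℝ := fun v => tF X d i 4 K v / 2 with hT
  have hTb : ∀ v, |T v| ≤ 2 := by
    intro v
    have h5 := abs_tr_le (F := K) ((i : ℝ) / 2) (Pool.Agent.W353.PV.alp X d i 4 K) v
    have h6 : |tF X d i 4 K v| ≤ (4 : ℕ) := h5
    rw [hT]
    simp only
    rw [abs_div, abs_two]
    push_cast at h6
    linarith
  set M : ℕ → ℤ := fun r => if r = 0 then 1 else -k r with hM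
  have hTr : Tr T M := by
    refine ⟨hTb, fun r => ?_⟩
    by_cases hr : r = 0
    · subst hr
      refine has_one.congr (fun v => by rw [pow_zero]) ?_
      rw [hM]
      norm_num
    · obtain ⟨B, hB, hkB⟩ := hk r (by omega)
      set γ : HeightOneSpectrum (𝓞 K) → Fin 2 → ℂ := fun v =>
        Pool.Agent.W353.PV.pick fun γ => IsHalf X d i v γ ∧
          ∀ z : ℂ, (B v).eval z = ∏ f : Fin r → Fin 2, (1 - (∏ j, γ (f j)) * z) with hγ
      have hg : ∀ᶠ v in cofinite, IsHalf X d i v (γ v) ∧
          ∀ z : ℂ, (B v).eval z = ∏ f : Fin r → Fin 2, (1 - (∏ j, γ v (f j)) * z) :=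
        hB.1.mono fun v hv => Pool.Agent.W353.PV.pick_spec hv
      refine (gamma_size (b := 2) (i := i) (r := r) hTb (γ := γ)
        (hg.mono fun v hv => (hv.1.facts hi).1) (hg.mono fun v hv => (hv.1.facts hi).2)
        (hg.mono fun v hv => hv.2) hB.2 hkB).congr (fun v => rfl) ?_
      rw [hM]
      simp only [if_neg hr]
      push_cast
      rfl
  have hte : ∀ᶠ v in cofinite, T v = t v := by
    refine ht.mono fun v hv => ?_
    obtain ⟨γ, h5, h6⟩ := hv
    have h7 := (h5.facts hi).2
    rw [Fin.sum_univ_two, h6] at h7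
    have hq : (0 : ℝ) < (nm K v : ℝ) := by exact_mod_cast nm_pos v
    have h8 : t v * (nm K v : ℝ) ^ ((i : ℝ) / 2) = T v * (nm K v : ℝ) ^ ((i : ℝ) / 2) := by
      exact_mod_cast h7
    exact (mul_right_cancel₀ (by positivity) h8).symm
  have hMk : ∀ r, 1 ≤ r → k r = -M r := by
    intro r hr
    rw [hM]
    simp only [if_neg (show r ≠ 0 by omega)]
    ring
  rcases Tr_main hTr hMk with ⟨n, hn1, hn⟩ | ⟨L, hL, hf, ho⟩
  · left
    refine ⟨n, hn1, fun δ hδ => ?_⟩
    refine hasMean_of_has (has_cofinite (hTr.near hn1 hn hδ) (hte.mono fun v hv => ?_))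
    simp only [Set.mem_ofPred_eq, hv]
  · right
    exact ⟨L, hL, fun f hf' => hasMean_of_has (has_cofinite (hf f hf')
      (hte.mono fun v hv => by rw [hv])), ho⟩

end Pool.Agent.X303.SQ
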