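import Pool.Agent.X303.SC.Two

/-! Integral Toeplitz forms with `c 0 = 2`: two nonzero terms of type `A`. -/

set_option autoImplicit false

namespace Pool.Agent.X303.SQ

open Polynomial Pool.Agent.X303.SC

variable {c : ℕ → ℤ}

/-- the alternative for any term -/
theorem alt (h : Pos c) (h0 : c 0 = 2) {n : ℕ} (hn : 0 < n) {ε : ℤ} (hε : ε = 1 ∨ ε = -1)
    (hc : c n = ε) : (∀ j, 2 ≤ j → c (j * n) = 0) ∨ ∀ j, 1 ≤ j → c (j * n) = ε ^ j := by
  have h1 := pos_mul h hn
  rcases hε with rfl | rfl
  · have h2 := pos_alt h1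
    have h3 := alternative h2 (by simp [h0]) (by simp [hc])
    rcases h3 with h3 | h3
    · left
      intro j hj
      have := h3 j hj
      have h4 : (-1 : ℤ) ^ j ≠ 0 := pow_ne_zero _ (by norm_num)
      exact (mul_eq_zero.1 this).resolve_left h4
    · right
      intro j hj
      have := h3 j hj
      have h4 : (-1 : ℤ) ^ j ≠ 0 := pow_ne_zero _ (by norm_num)
      rw [one_pow]
      have h5 : (-1 : ℤ) ^ j * c (j * n) = (-1) ^ j * 1 := by rw [this, mul_one]
      exact mul_left_cancel₀ h4 h5
  · have h3 := alternative h1 (by simp [h0]) (by simp [hc])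
    exact h3

/-- a sum of signed monomials -/
noncomputable def sm : List (ℤ × ℕ) → ℤ[X]
  | [] => 0
  | (a, i) :: L => monomial i a + sm L

/-- the pairing with a list -/
def pr (c : ℕ → ℤ) (i : ℕ) : List (ℤ × ℕ) → ℤ
  | [] => 0
  | (b, j) :: L => b * c (df i j) + pr c i L

/-- the form on lists -/
def qf (c : ℕ → ℤ) : List (ℤ × ℕ) → ℤ
  | [] => 0
  | (a, i) :: L => a * a * c 0 + 2 * a * pr c i L + qf c L

theorem bil_pr (c : ℕ → ℤ) (i : ℕ) (a : ℤ) : ∀ L : List (ℤ × ℕ),
    bil c (monomial i a) (sm L) = a * pr c i L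
  | [] => by rw [sm, pr, bil_zero_right, mul_zero]
  | (b, j) :: L => by
    rw [sm, pr, bil_add_right, bil_mono, bil_pr c i a L]
    ring

theorem bil_sm (c : ℕ → ℤ) : ∀ L : List (ℤ × ℕ), bil c (sm L) (sm L) = qf c L
  | [] => by rw [sm, qf, bil_zero_right]
  | (a, i) :: L => by
    rw [sm, qf, bil_add_sq, bil_mono, bil_pr, bil_sm c L]
    have : df i i = 0 := by unfold df; omega
    rw [this]
    ring

theorem sm_coeff (k : ℕ) : ∀ L : List (ℤ × ℕ), (∀ x ∈ L, x.2 ≠ k) → (sm L).coeff k = 0
  | [], _ => by rw [sm, coeff_zero]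
  | (a, i) :: L, h => by
    rw [sm, coeff_add, coeff_monomial, if_neg (h (a, i) (by simp)), zero_add]
    exact sm_coeff k L fun x hx => h x (by simp [hx])

/-- positivity on lists whose first index does not occur again -/
theorem qf_pos (h : Pos c) {a : ℤ} {i : ℕ} {L : List (ℤ × ℕ)} (ha : a ≠ 0)
    (hL : ∀ x ∈ L, x.2 ≠ i) : 0 < qf c ((a, i) :: L) := by
  rw [← bil_sm]
  refine h _ fun h0 => ha ?_
  have h1 := congrArg (fun P : ℤ[X] => P.coeff i) h0
  simp only [sm, coeff_add, coeff_monomial, coeff_zero, if_true] at h1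
  rw [sm_coeff i L hL, add_zero] at h1
  exact h1

/-- **Two nonzero terms of type `A`, the second one not twice the first one.** -/
theorem no_two (h : Pos c) (h0 : c 0 = 2) {n m : ℕ} (hn : 0 < n) (hnm : n < m) {ε δ : ℤ}
    (hε : ε = 1 ∨ ε = -1) (hδ : δ = 1 ∨ δ = -1) (hcn : c n = ε) (hcm : c m = δ)
    (hAn : ∀ j, 2 ≤ j → c (j * n) = 0) (hAm : ∀ j, 2 ≤ j → c (j * m) = 0)
    (hmn : c (m - n) = 0) : False := by
  have hn2 : c (2 * n) = 0 := hAn 2 le_rfl
  have hm2 : c (2 * m) = 0 := hAm 2 le_rfl
  have hb := bound h h0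
  -- the node of degree four
  have h1 : c (m + n) = ε * δ := by
    have hp := qf_pos h (a := 2) (i := m) (L := [(-ε, m - n), (-ε, m + n), (-δ, 0), (-δ, 2 * m)])
      (by norm_num) (by simp; omega)
    simp only [qf, pr] at hp
    have e1 : df m (m - n) = n := by unfold df; omega
    have e2 : df m (m + n) = n := by unfold df; omega
    have e3 : df m 0 = m := by unfold df; omega
    have e4 : df m (2 * m) = m := by unfold df; omega
    have e5 : df (m - n) (m + n) = 2 * n := by unfold df; omega
    have e6 : df (m - n) 0 = m - n := by unfold df; omega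
    have e7 : df (m - n) (2 * m) = m + n := by unfold df; omega
    have e8 : df (m + n) 0 = m + n := by unfold df; omega
    have e9 : df (m + n) (2 * m) = m - n := by unfold df; omega
    have e10 : df 0 (2 * m) = 2 * m := by unfold df; omega
    rw [e1, e2, e3, e4, e5, e6, e7, e8, e9, e10, h0, hcn, hcm, hn2, hm2, hmn] at hp
    rcases hb (m + n) (by omega) with h2 | h2 | h2 <;> rcases hε with rfl | rfl <;>
      rcases hδ with rfl | rfl <;> rw [h2] at hp ⊢ <;> first | (norm_num at hp; done) | (norm_num at hp ⊢; done) | norm_num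
  have hεδ : ε * δ = 1 ∨ ε * δ = -1 := by
    rcases hε with rfl | rfl <;> rcases hδ with rfl | rfl <;> norm_num
  -- type `A` for `m + n`
  have h2 : c (2 * (m + n)) = 0 := by
    rcases alt h h0 (by omega) hεδ h1 with h3 | h3
    · exact h3 2 le_rfl
    · exfalso
      have h4 := h3 n (by omega)
      have h5 := hAn (m + n) (by omega)
      rw [mul_comm] at h5
      rw [h5] at h4
      have h6 : (ε * δ) ^ n ≠ 0 := pow_ne_zero _ (by rcases hεδ with h | h <;> rw [h] <;> norm_num)
      exact h6 h4.symm
  -- a triangle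
  have key : ∀ p q : ℕ, ∀ α β : ℤ, 0 < p → p < q → (α = 1 ∨ α = -1) → (β = 1 ∨ β = -1) →
      c p = α → c q = β → c (2 * p) = 0 → c (2 * q) = 0 → c (q - p) = α * β →
      c (q + p) = 0 := by
    intro p q α β hp0 hpq hα hβ hcp hcq hp2 hq2 hqp
    have e1 : df (q - p) (q + p) = 2 * p := by unfold df; omega
    have e2 : df (q - p) 0 = q - p := by unfold df; omega
    have e3 : df (q - p) (2 * q) = q + p := by unfold df; omega
    have e4 : df (q + p) 0 = q + p := by unfold df; omega
    have e5 : df (q + p) (2 * q) = q - p := by unfold df; omega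
    have e6 : df 0 (2 * q) = 2 * q := by unfold df; omega
    have e1' : df (q + p) (q - p) = 2 * p := by unfold df; omega
    have e3' : df (2 * q) (q - p) = q + p := by unfold df; omega
    have e5' : df (2 * q) (q + p) = q - p := by unfold df; omega
    -- `α z^(q+p) - β z^(2q)` and `α z^(q-p) - β z^0`
    have hA := qf_pos h (a := α) (i := q + p) (L := [(-β, 2 * q), (α, q - p), (-β, 0)])
      (by rcases hα with rfl | rfl <;> norm_num) (by simp; omega)
    have hB := qf_pos h (a := α) (i := q + p) (L := [(-β, 2 * q), (-α, q - p), (β, 0)])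
      (by rcases hα with rfl | rfl <;> norm_num) (by simp; omega)
    simp only [qf, pr] at hA hB
    have e7 : df (2 * q) 0 = 2 * q := by unfold df; omega
    rw [e5, e1', e4, e3', e7, e2, h0, hp2, hq2, hqp] at hA hB
    rcases hb (q + p) (by omega) with h3 | h3 | h3
    · exfalso
      rw [h3] at hA hB
      rcases hα with rfl | rfl <;> rcases hβ with rfl | rfl <;>
        first | (norm_num at hA; done) | (norm_num at hB; done)
    · exact h3
    · exfalso
      rw [h3] at hA hB
      rcases hα with rfl | rfl <;> rcases hβ with rfl | rfl <;>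
        first | (norm_num at hA; done) | (norm_num at hB; done)
  have h3 : c (m + 2 * n) = 0 := by
    have := key n (m + n) ε (ε * δ) hn (by omega) hε hεδ hcn h1 hn2 h2 (by
      rw [Nat.add_sub_cancel, hcm]
      rcases hε with rfl | rfl <;> norm_num)
    rwa [show m + n + n = m + 2 * n by ring] at this
  have h4 : c (2 * m + n) = 0 := by
    have := key m (m + n) δ (ε * δ) (by omega) (by omega) hδ hεδ hcm h1 hm2 h2 (by
      rw [Nat.add_sub_cancel_left, hcn]
      rcases hδ with rfl | rfl <;> norm_num)
    rwa [show m + n + m = 2 * m + n by ring] at this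
  -- the cycle of length six
  have hp := qf_pos h (a := ε * δ) (i := 0)
    (L := [(-δ, n), (-ε, m), (ε, m + 2 * n), (δ, 2 * m + n), (-(ε * δ), 2 * m + 2 * n)])
    (by rcases hεδ with h | h <;> rw [h] <;> norm_num) (by simp; omega)
  simp only [qf, pr] at hp
  have e1 : df 0 n = n := by unfold df; omega
  have e2 : df 0 m = m := by unfold df; omega
  have e3 : df 0 (m + 2 * n) = m + 2 * n := by unfold df; omega
  have e4 : df 0 (2 * m + n) = 2 * m + n := by unfold df; omega
  have e5 : df 0 (2 * m + 2 * n) = 2 * (m + n) := by unfold df; omega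
  have e6 : df n m = m - n := by unfold df; omega
  have e7 : df n (m + 2 * n) = m + n := by unfold df; omega
  have e8 : df n (2 * m + n) = 2 * m := by unfold df; omega
  have e9 : df n (2 * m + 2 * n) = 2 * m + n := by unfold df; omega
  have e10 : df m (m + 2 * n) = 2 * n := by unfold df; omega
  have e11 : df m (2 * m + n) = m + n := by unfold df; omega
  have e12 : df m (2 * m + 2 * n) = m + 2 * n := by unfold df; omega
  have e13 : df (m + 2 * n) (2 * m + n) = m - n := by unfold df; omega
  have e14 : df (m + 2 * n) (2 * m + 2 * n) = m := by unfold df; omega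
  have e15 : df (2 * m + n) (2 * m + 2 * n) = n := by unfold df; omega
  rw [e1, e2, e3, e4, e5, e6, e7, e8, e9, e10, e11, e12, e13, e14, e15, h0, hcn, hcm, h1, h2, h3,
    h4, hmn, hn2, hm2] at hp
  rcases hε with rfl | rfl <;> rcases hδ with rfl | rfl <;> norm_num at hp

end Pool.Agent.X303.SQ
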